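import Pool.Agent.Run7.h325.RSI.Stm

/-!
Project RSI (helper325), piece LLOW.
-/

set_option autoImplicit false

namespace Run7.h83.RSI

open MeasureTheory Filter Topology Metric
open Pool.Agent.Run7.h325.RSI

theorem Gr_nonneg (m : ℕ) (t : ℝ) : 0 ≤ Gr m t := by
  unfold Gr
  split_ifs with h
  · exact Real.rpow_nonneg (div_nonneg h.1.le (h.1.trans h.2).le) _
  · exact zero_le_one

theorem wt_nonneg (m : ℕ) (x : E2) : 0 ≤ wt m x := div_nonneg (Gr_nonneg m _) (Gr_nonneg m _)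

theorem wt_int (hW : S_WM) (m : ℕ) (hm : 1 ≤ m) : IntegrableOn (wt m) (SS m) := by
  unfold SS
  exact (integrableOn_finset_iUnion).2 fun p _ => (hW m p hm).1

theorem t_LLOW (hT : S_TLOW) (hB : S_BBP) (hW : S_WM) (hF : S_FFP) (hD : S_DIR) (hP : S_PSI) :
    S_LLOW := by
  intro m φ hm hφ
  obtain ⟨hb1, -, hbm, -, -, hbi⟩ := hB m φ hm hφ
  obtain ⟨hfc, -, -, hfs⟩ := hF m φ hm hφ
  obtain ⟨hPc, hP0, hP1, -⟩ := hP m hm
  set g : E2 → E2 → ℝ := fun x y =>
    bb y * ff m φ y * (Psi m (‖x - y‖⁻¹ • (x - y)) - mean (Psi m)) / ‖x - y‖ ^ 2 with hg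
  have hfm : Measurable (ff m φ) := hfc.continuous.measurable
  have hgm : StronglyMeasurable (Function.uncurry g) := by
    have h1 : Measurable fun z : E2 × E2 => ‖z.1 - z.2‖⁻¹ • (z.1 - z.2) :=
      ((measurable_fst.sub measurable_snd).norm.inv).smul (measurable_fst.sub measurable_snd)
    have h2 : Measurable fun z : E2 × E2 => Psi m (‖z.1 - z.2‖⁻¹ • (z.1 - z.2)) :=
      hPc.measurable.comp h1
    have h3 : Measurable (Function.uncurry g) :=
      (((hbm.comp measurable_snd).mul (hfm.comp measurable_snd)).mul (h2.sub_const _)).div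
        ((measurable_fst.sub measurable_snd).norm.pow_const 2)
    exact h3.stronglyMeasurable
  have him : StronglyMeasurable fun x => ∫ y, g x y := hgm.integral_prod_right
  have hSS : ∀ x ∈ SS m, ∃ J ∈ BJ m, ‖x - zz J‖ ≤ rho m := by
    intro x hx
    unfold SS at hx
    simp only [Set.mem_iUnion, mem_ball, dist_eq_norm, exists_prop] at hx
    obtain ⟨J, hJ, h⟩ := hx
    exact ⟨J, hJ, h.le⟩
  have hSm : MeasurableSet (SS m) := by
    unfold SS
    exact Finset.measurableSet_biUnion _ fun _ _ => measurableSet_ball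
  set K : ℝ := 4 * (1 + |mean (Psi m)|) with hK
  have hbound : ∀ x ∈ SS m, ‖∫ y, g x y‖ ≤ ∫ y, K * |bb y * ff m φ y| := by
    intro x hx
    obtain ⟨J, hJ, hxJ⟩ := hSS x hx
    refine norm_integral_le_of_norm_le (hbi.abs.const_mul K) (Eventually.of_forall fun y => ?_)
    show ‖bb y * ff m φ y * (Psi m (‖x - y‖⁻¹ • (x - y)) - mean (Psi m)) / ‖x - y‖ ^ 2‖ ≤
      K * |bb y * ff m φ y|
    by_cases hy : ff m φ y = 0
    · rw [hy]
      simp
    · obtain ⟨I, hI, -, hyI⟩ := hfs y hy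
      obtain ⟨-, hd, -⟩ := hD m I J x y hm hI hJ hxJ hyI
      have h1 : (1 : ℝ) / 4 ≤ ‖x - y‖ ^ 2 := by nlinarith
      have h2 : |Psi m (‖x - y‖⁻¹ • (x - y)) - mean (Psi m)| ≤ 1 + |mean (Psi m)| := by
        refine (abs_sub _ _).trans (add_le_add ?_ le_rfl)
        rw [abs_of_nonneg (hP0 _)]
        exact hP1 _
      rw [norm_div, norm_mul, Real.norm_eq_abs, Real.norm_eq_abs, Real.norm_eq_abs,
        abs_of_nonneg (show (0 : ℝ) ≤ ‖x - y‖ ^ 2 by positivity), div_le_iff₀ (by linarith)]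
      have h3 : 0 ≤ |bb y * ff m φ y| := abs_nonneg _
      have h4 : 0 ≤ 1 + |mean (Psi m)| := by positivity
      calc |bb y * ff m φ y| * |Psi m (‖x - y‖⁻¹ • (x - y)) - mean (Psi m)|
          ≤ |bb y * ff m φ y| * (1 + |mean (Psi m)|) := mul_le_mul_of_nonneg_left h2 h3
        _ = K * |bb y * ff m φ y| * (1 / 4) := by rw [hK]; ring
        _ ≤ K * |bb y * ff m φ y| * ‖x - y‖ ^ 2 :=
            mul_le_mul_of_nonneg_left h1 (mul_nonneg (by rw [hK]; positivity) h3)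
  have hlow : ∀ x ∈ SS m, (m : ℝ) ^ 4 * (r0 m ^ 2 * (m : ℝ) ^ 8 / 2) ≤ ∫ y, g x y := by
    intro x hx
    obtain ⟨J, hJ, hxJ⟩ := hSS x hx
    exact hT m φ bb ((m : ℝ) ^ 4) J x hm hφ hJ hxJ (by positivity) hb1 hbi
  have hwi := wt_int hW m hm
  have hint : IntegrableOn (fun x => (∫ y, g x y) * wt m x) (SS m) := by
    refine Integrable.bdd_mul (c := ∫ y, K * |bb y * ff m φ y|) hwi him.aestronglyMeasurable ?_
    exact (ae_restrict_iff' hSm).2 (Eventually.of_forall hbound)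
  show (m : ℝ) ^ 4 * (r0 m ^ 2 * (m : ℝ) ^ 8 / 2) * (∫ x in SS m, wt m x) ≤
    ∫ x in SS m, (∫ y, g x y) * wt m x
  rw [← integral_const_mul]
  exact setIntegral_mono_on (hwi.const_mul _) hint hSm fun x hx =>
    mul_le_mul_of_nonneg_right (hlow x hx) (wt_nonneg m x)

end Run7.h83.RSI
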